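import Pool.Agent.Q266.RP.Stm

/-! # RP: job XU -/

namespace Pool.Agent.Q129.RP

open Pool.Agent.Q266.RP

theorem xu (hC : S_COMM) : S_XU := by
  intro p hp G _ _ hG hPA e z hPair _ hPQ n x hne
  obtain ⟨hep, hec, hzc, hzo, hconj⟩ := hPair
  obtain ⟨u, hu⟩ : ∃ u, u = e * z ^ n := ⟨_, rfl⟩
  rw [← hu] at hne
  have hzcomm : ∀ a : G, z * a = a * z := fun a => (Subgroup.mem_center_iff.1 hzc a).symm
  have hznc : z ^ n ∈ Subgroup.center G := Subgroup.pow_mem _ hzc n
  have hup : u ^ p = 1 := by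
    have h1 : Commute e (z ^ n) := (Subgroup.mem_center_iff.1 hznc e)
    rw [hu, h1.mul_pow, hep, one_mul, ← pow_mul, mul_comm, pow_mul, ← hzo, pow_orderOf_eq_one, one_pow]
  have huc : u ∉ Subgroup.center G := by
    intro h
    apply hec
    have h1 : e = u * (z ^ n)⁻¹ := by rw [hu]; group
    rw [h1]
    exact mul_mem h (inv_mem hznc)
  have hu1 : u ≠ 1 := fun h => huc (h ▸ one_mem _)
  have huo : orderOf u = p := orderOf_eq_prime hup hu1
  -- `u` lies in `zpowers x`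
  have hux : u ∈ Subgroup.zpowers x := by
    obtain ⟨w, hw, hw1⟩ := (Subgroup.ne_bot_iff_exists_ne_one).1 hne |> fun ⟨w, hw⟩ =>
      (⟨w, w.2, fun h => hw (Subtype.ext h)⟩ : ∃ w : G, w ∈ Subgroup.zpowers x ⊓ Subgroup.zpowers u ∧ w ≠ 1)
    have h1 : Subgroup.zpowers w ≤ Subgroup.zpowers u := by
      rw [Subgroup.zpowers_le]
      exact hw.2
    have h2 : w ^ p = 1 := by
      have h3 := orderOf_dvd_natCard (⟨w, hw.2⟩ : Subgroup.zpowers u)
      rw [Nat.card_zpowers, huo] at h3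
      have h4 := orderOf_dvd_iff_pow_eq_one.1 h3
      exact congrArg Subtype.val h4
    have h3 : orderOf w = p := orderOf_eq_prime h2 hw1
    have h4 : Subgroup.zpowers w = Subgroup.zpowers u := by
      apply Subgroup.eq_of_le_of_card_ge h1
      rw [Nat.card_zpowers, Nat.card_zpowers, huo, h3]
    have h5 : u ∈ Subgroup.zpowers w := by rw [h4]; exact Subgroup.mem_zpowers u
    exact (Subgroup.zpowers_le.2 hw.1) h5
  obtain ⟨m, hm⟩ := hG x
  obtain ⟨m, _, hm⟩ : ∃ k, k ≤ m ∧ orderOf x = p ^ k :=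
    (Nat.dvd_prime_pow hp.out).1 (orderOf_dvd_of_pow_eq_one hm)
  obtain ⟨i, hi⟩ : ∃ i : ℕ, x ^ i = u := by
    have h1 := mem_powers_iff_mem_zpowers.2 hux
    obtain ⟨i, hi⟩ := h1
    exact ⟨i, hi⟩
  have hm0 : m ≠ 0 := by
    rintro rfl
    rw [pow_zero, orderOf_eq_one_iff] at hm
    apply hu1
    rw [← hi, hm, one_pow]
  obtain ⟨k, rfl⟩ := Nat.exists_eq_succ_of_ne_zero hm0
  obtain ⟨y, hy⟩ : ∃ y, y = x ^ (p ^ k) := ⟨_, rfl⟩
  have hij : ∃ j : ℕ, u = y ^ j := by
    have h1 : x ^ (i * p) = 1 := by rw [pow_mul, hi, hup]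
    have h2 := orderOf_dvd_of_pow_eq_one h1
    rw [hm, Nat.succ_eq_add_one, pow_succ] at h2
    obtain ⟨j, hj⟩ := Nat.dvd_of_mul_dvd_mul_right hp.out.pos h2
    exact ⟨j, by rw [hy, ← pow_mul, ← hj, hi]⟩
  obtain ⟨j, hj⟩ := hij
  have hyc : y ∉ Subgroup.center G := by
    intro h
    apply huc
    rw [hj]
    exact Subgroup.pow_mem _ h j
  have hy1 : y ≠ 1 := fun h => hyc (h ▸ one_mem _)
  have hyp : y ^ p = 1 := by
    rw [hy, ← pow_mul, ← pow_succ, ← Nat.succ_eq_add_one, ← hm, pow_orderOf_eq_one]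
  have hyo : orderOf y = p := orderOf_eq_prime hyp hy1
  have hyu : y ∈ Subgroup.zpowers u := by
    have h1 : Subgroup.zpowers u ≤ Subgroup.zpowers y := by
      rw [Subgroup.zpowers_le, hj]
      exact Subgroup.pow_mem _ (Subgroup.mem_zpowers y) j
    have h4 : Subgroup.zpowers u = Subgroup.zpowers y := by
      apply Subgroup.eq_of_le_of_card_ge h1
      rw [Nat.card_zpowers, Nat.card_zpowers, huo, hyo]
    rw [h4]
    exact Subgroup.mem_zpowers y
  obtain ⟨l, hl⟩ := Subgroup.mem_zpowers_iff.1 hyu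
  rw [Subgroup.mem_center_iff] at hyc
  push Not at hyc
  obtain ⟨g, hg⟩ := hyc
  -- images commute
  have hmz : ∀ r : ℕ, (QuotientGroup.mk (z ^ r) : G ⧸ Subgroup.zpowers z) = 1 := by
    intro r
    rw [QuotientGroup.eq_one_iff]
    exact Subgroup.pow_mem _ (Subgroup.mem_zpowers z) r
  have hgu : Commute (QuotientGroup.mk g : G ⧸ Subgroup.zpowers z) (QuotientGroup.mk u) := by
    obtain ⟨r, hr⟩ := hconj g
    have h1 : g * u * g⁻¹ = u * z ^ r := by
      have h2 : (z ^ n) * g⁻¹ = g⁻¹ * z ^ n := (Subgroup.mem_center_iff.1 hznc g⁻¹).symm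
      calc g * u * g⁻¹ = g * e * (z ^ n * g⁻¹) := by rw [hu]; group
        _ = (g * e * g⁻¹) * z ^ n := by rw [h2]; group
        _ = e * z ^ r * z ^ n := by rw [hr]
        _ = e * z ^ n * z ^ r := by rw [mul_assoc, mul_assoc, ← pow_add, ← pow_add, add_comm]
        _ = u * z ^ r := by rw [hu]
    have h2 : g * u = u * z ^ r * g := by
      rw [← h1]; group
    have h3 := congrArg (QuotientGroup.mk (s := Subgroup.zpowers z)) h2
    rw [QuotientGroup.mk_mul, QuotientGroup.mk_mul, QuotientGroup.mk_mul, hmz, mul_one] at h3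
    exact h3
  have hgy : Commute (QuotientGroup.mk g : G ⧸ Subgroup.zpowers z) (QuotientGroup.mk y) := by
    rw [← hl, QuotientGroup.mk_zpow]
    exact hgu.zpow_right l
  obtain ⟨h, hh⟩ : ∃ h, h = g ^ (p ^ k) := ⟨_, rfl⟩
  have hnc : ¬ x * h = h * x := by
    rw [hh, ← hC p G hPA k x g, ← hy]
    intro h1
    exact hg h1.symm
  have hcc : (QuotientGroup.mk x : G ⧸ Subgroup.zpowers z) * QuotientGroup.mk h =
      QuotientGroup.mk h * QuotientGroup.mk x := by
    rw [hh, QuotientGroup.mk_pow, ← hC p _ hPQ k, ← QuotientGroup.mk_pow, ← hy]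
    exact hgy.symm
  refine ⟨h, x⁻¹ * (h * x * h⁻¹), ?_, ?_, by group⟩
  · have h1 : x⁻¹ * (h * x * h⁻¹) ∈ Subgroup.zpowers z := by
      rw [← QuotientGroup.eq_one_iff, QuotientGroup.mk_mul, QuotientGroup.mk_mul, QuotientGroup.mk_mul,
        ← hcc, QuotientGroup.mk_inv, QuotientGroup.mk_inv]
      group
    exact (Subgroup.zpowers_le.2 hzc) h1
  · intro h1
    apply hnc
    have h2 : h * x * h⁻¹ = x := by
      have := congrArg (fun t => x * t) h1
      simpa [mul_assoc] using this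
    calc x * h = (h * x * h⁻¹) * h := by rw [h2]
      _ = h * x := by group

end Pool.Agent.Q129.RP
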